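import Pool.Agent.Helper53.CX.St
import Pool.Agent.Helper83.CO.St

/-!
Project CO, module NEC: a nef b-divisor without defect is principal.
-/

open scoped BigOperators
open MvPolynomial

namespace Pool.Agent.Helper79.CO

open Pool.Agent.Helper53.CX Pool.Agent.Helper83.CO

theorem hNEC (_hUNI : StUNI) (hTOR : StTOR) (hPDC : StPDC) (hNEA : StNEA) (hNEB : StNEB)
    (_hExt : StExt) (_hMon : StMon) (hTorV : StTorV) (hPadV : StPadV) (hRig : StRig) : StNEC := by
  intro k P D A M hIs hN hnp
  by_contra hlt
  have hle : A.Lam M ≤ 0 := by omega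
  obtain ⟨ζ, α, hζ, hD⟩ := hNEA k P D A M hIs hN hle
  have hall := hNEB k P D A.vd M ζ α hIs A.hvd hN hζ hD
  have hp : ∀ p ∈ P, ζ (some p) = 0 := by
    intro p hpP
    have hp0 : p ≠ 0 := fun h => hIs.zero (h ▸ hpP)
    have hTP : TorusPrime (X 0 - C p : Pn (k + 1)) := (hPDC k).1 p hp0
    obtain ⟨v, hv⟩ := (hPadV (k + 1) _ hTP.1).1
    have hval := ((hPDC k).2.1 p v hp0).1 hv
    have hM0 : M v = 0 := hN.1 _ v hTP hv
    have h1 := hall (some p) (Pi.single 0 1) v (by simp [crit, hpP]) (by simp) hval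
    have h2 : prR (Pi.single 0 1 : Fin (k + 1) → ℤ) (ζ (some p)) α = ζ (some p) := by
      simp [prR]
    rw [hM0, h2] at h1
    simp only [Int.cast_zero] at h1
    linarith
  have hsum : ζ none + ζ (some 0) = 0 := by
    have hz : (0 : ℂ) ∉ P := hIs.zero
    rw [crit, Finset.sum_insert (by simp), Finset.sum_insert (by simpa using hz),
      Finset.sum_image (by intro a _ b _ h; exact Option.some_injective _ h)] at hζ
    rw [Finset.sum_eq_zero hp] at hζ
    linarith
  have htor : ∀ (b : Fin (k + 1) → ℤ) (v : DivVal (Kn (k + 1))), v.ord = monOrd b →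
      (M v : ℝ) = - ((b 0 : ℝ) * ζ (some 0) + ∑ j : Fin k, (b j.succ : ℝ) * α j) := by
    intro b v hv
    rcases le_total 0 (b 0) with hb | hb
    · have h1 := (hTOR k v).1 b hv hb
      have h2 := hall (some 0) b v (by simp [crit]) hb h1
      rw [h2, prR]
    · have h1 := (hTOR k v).2.1 b hv hb
      have h2 := hall none (Function.update b 0 (- b 0)) v (by simp [crit])
        (by simp only [Function.update_self]; omega) h1
      rw [h2, prR]
      have h3 : ∀ j : Fin k, Function.update b 0 (- b 0) j.succ = b j.succ := by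
        intro j
        rw [Function.update_of_ne (Fin.succ_ne_zero j)]
      simp only [Function.update_self, h3, Int.cast_neg]
      have h4 : ζ none = - ζ (some 0) := by linarith
      rw [h4]
      ring
  have hv : ∀ j : Fin (k + 1), ∃ v : DivVal (Kn (k + 1)), v.ord = monOrd (Pi.single j 1) :=
    fun j => hTorV (k + 1) (Pi.single j 1) (Pi.single j 1) (by simp [Pi.single_apply])
  choose v hv using hv
  have hu0 : (M (v 0) : ℝ) = - ζ (some 0) := by
    rw [htor _ _ (hv 0)]
    simp
  have huj : ∀ j : Fin k, (M (v j.succ) : ℝ) = - α j := by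
    intro j
    rw [htor _ _ (hv j.succ)]
    have : ∀ i : Fin k, ((Pi.single j.succ (1 : ℤ) : Fin (k + 1) → ℤ) i.succ : ℝ) * α i =
        if i = j then α i else 0 := by
      intro i
      by_cases hij : i = j
      · subst hij; simp
      · have : i.succ ≠ j.succ := fun h => hij (Fin.succ_injective _ h)
        simp [hij]
    simp only [this]
    have h0 : (Pi.single j.succ (1 : ℤ) : Fin (k + 1) → ℤ) 0 = 0 :=
      Pi.single_eq_of_ne (Fin.succ_ne_zero j).symm _
    rw [h0]
    simp
  apply hnp
  refine hRig (k + 1) M hN ⟨fun j => M (v j), fun a w v' _ hv' => ?_⟩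
  have h1 := htor a v' hv'
  have h2 : (M v' : ℝ) = ((∑ j, M (v j) * a j : ℤ) : ℝ) := by
    rw [h1]
    push_cast
    rw [Fin.sum_univ_succ, hu0]
    simp only [huj]
    have : ∑ i : Fin k, - α i * (a i.succ : ℝ) = - ∑ j : Fin k, (a j.succ : ℝ) * α j := by
      rw [← Finset.sum_neg_distrib]
      exact Finset.sum_congr rfl (fun i _ => by ring)
    rw [this]
    ring
  exact_mod_cast h2

end Pool.Agent.Helper79.CO
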